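import Pool.Agent.H8.TD.Targets

/-!
# Zariski dense orbits in dimension three: the dimension of a space of sections (row CLR)
-/

set_option autoImplicit false

open MvPolynomial
open Pool.Agent.H12.ZD (pmap v O Res DenseOrbit NoInv)
open Pool.Agent.H18.HIT
open Pool.Agent.H8.ZA (HFam Const NA sz)
open Pool.Agent.H8.TD

namespace Pool.Agent.H13.TD

open scoped IntermediateField.algebraAdjoinAdjoin in
/-- in transcendence degree one every transcendental element has finite degree -/
theorem fin_of_tr {κ C : Type} [Field κ] [Field C] [Algebra κ C]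
    (hy : ∃ y : C, FiniteDimensional (IntermediateField.adjoin κ {y}) C)
    (S : Set C) (hS : S.Finite) (hgen : IntermediateField.adjoin κ S = ⊤)
    (z : C) (hz : Transcendental κ z) : FiniteDimensional (IntermediateField.adjoin κ {z}) C := by
  obtain ⟨y, hy⟩ := hy
  have h1 : Algebra.IsAlgebraic (IntermediateField.adjoin κ {y}) C := inferInstance
  have h2 : Algebra.IsAlgebraic (Algebra.adjoin κ {y}) C :=
    (IsFractionRing.comap_isAlgebraic_iff (A := Algebra.adjoin κ {y})
      (K := IntermediateField.adjoin κ {y}) (C := C)).2 h1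
  have h3 : Algebra.trdeg κ C ≤ 1 := by
    have h4 := Algebra.IsAlgebraic.trdeg_le_cardinalMk κ ({y} : Set C)
    simpa using h4
  have h5 : AlgebraicIndependent κ (fun _ : Unit => z) :=
    (algebraicIndependent_unique_type_iff).2 hz
  have h6 : IsTranscendenceBasis κ (fun _ : Unit => z) :=
    h5.isTranscendenceBasis_of_trdeg_le_of_finite (by simpa using h3)
  have h7 := h6.isAlgebraic_field
  have h8 : Set.range (fun _ : Unit => z) = {z} := by
    ext x; simp [eq_comm]
  rw [h8] at h7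
  have h9 : IntermediateField.adjoin (IntermediateField.adjoin κ {z}) S = ⊤ := by
    rw [eq_top_iff]
    intro x _
    have h10 : x ∈ IntermediateField.adjoin κ S := by rw [hgen]; trivial
    have h11 : IntermediateField.adjoin κ S ≤
        (IntermediateField.adjoin (IntermediateField.adjoin κ {z}) S).restrictScalars κ := by
      rw [IntermediateField.adjoin_le_iff]
      exact IntermediateField.subset_adjoin _ S
    exact h11 h10
  have h12 : FiniteDimensional (IntermediateField.adjoin κ {z})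
      (IntermediateField.adjoin (IntermediateField.adjoin κ {z}) S) := by
    have : Finite S := hS
    exact IntermediateField.finiteDimensional_adjoin fun x _ =>
      (Algebra.IsAlgebraic.isAlgebraic x).isIntegral
  rw [h9] at h12
  exact LinearEquiv.finiteDimensional
    (IntermediateField.topEquiv (F := IntermediateField.adjoin κ {z}) (E := C)).toLinearEquiv

theorem lc_mem {k κ C : Type} [Field k] [Field κ] [Field C] [Algebra k κ] [Algebra κ C]
    [Algebra k C] [IsScalarTower k κ C] {b : ℕ} (ψ : Fin b → C) (R : Subalgebra κ C)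
    (hψ : ∀ i, ψ i ∈ R) (s : Fin b → k) : lc s ψ ∈ R := by
  unfold lc
  refine R.sum_mem fun i _ => ?_
  rw [← algebraMap_smul κ (s i) (ψ i)]
  exact R.smul_mem (hψ i) _

theorem pf_CLR (hCLZ : T_CLZ) (hLOW : T_LOW) : T_CLR := by
  classical
  intro k κ C _ _ _ _ _ _ _ _ _ a b φ ψ M M' n l hy hgen hφ hψ hs
  obtain ⟨s, hs⟩ := hs
  -- the ring
  obtain ⟨R, hR⟩ : ∃ R : Subalgebra κ C, R = Rg κ φ ψ := ⟨_, rfl⟩
  have hfin : (Set.range φ ∪ Set.range ψ).Finite := (Set.finite_range φ).union (Set.finite_range ψ)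
  have hRfg : R.FG := by
    rw [hR]
    unfold Rg
    obtain ⟨t, ht⟩ := hfin.exists_finset_coe
    exact ⟨t, by rw [ht]⟩
  have hφR : ∀ i, φ i ∈ R := fun i => by
    rw [hR]; exact Algebra.subset_adjoin (Or.inl ⟨i, rfl⟩)
  have hψR : ∀ i, ψ i ∈ R := fun i => by
    rw [hR]; exact Algebra.subset_adjoin (Or.inr ⟨i, rfl⟩)
  have hRtop : IntermediateField.adjoin κ (R : Set C) = ⊤ := by
    rw [eq_top_iff, ← hgen]
    refine IntermediateField.adjoin.mono κ _ _ ?_
    rintro x (⟨i, rfl⟩ | ⟨i, rfl⟩)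
    · exact hφR i
    · exact hψR i
  -- the function
  obtain ⟨z, hz⟩ : ∃ z : R, (z : C) = lc s ψ := ⟨⟨lc s ψ, lc_mem ψ R hψR s⟩, rfl⟩
  have hzt : Transcendental κ (z : C) := by rw [hz]; exact hs
  have hzf : FiniteDimensional (IntermediateField.adjoin κ {(z : C)}) C :=
    fin_of_tr hy _ hfin hgen _ hzt
  obtain ⟨q, hq⟩ : ∃ q, q = dg κ {(z : C)} := ⟨_, rfl⟩
  have hq1 : 0 < q := by
    rw [hq]
    unfold dg
    exact Module.finrank_pos
  have hqM : q ≤ M' := by
    rw [hq, hz]
    exact hψ s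
  -- the points
  obtain ⟨J, hJ⟩ : ∃ J, J = (n * M + l * M') / q + 1 := ⟨_, rfl⟩
  have hJq : n * M + l * M' < J * q := by
    rw [hJ, mul_comm _ q]
    exact Nat.lt_mul_div_succ _ hq1
  have hJq' : J * q ≤ n * M + (l + 1) * M' := by
    have h1 := Nat.div_mul_le_self (n * M + l * M') q
    rw [hJ]
    calc ((n * M + l * M') / q + 1) * q = (n * M + l * M') / q * q + q := by ring
      _ ≤ n * M + l * M' + M' := by omega
      _ = n * M + (l + 1) * M' := by ring
  have hbad := hLOW κ C R z hRfg hRtop hzt hzf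
  rw [← hq] at hbad
  have hinj : Function.Injective (algebraMap k κ) := (algebraMap k κ).injective
  have hbad' := hbad.preimage (f := algebraMap k κ) hinj.injOn
  obtain ⟨T, hT, hTc⟩ := hbad'.infinite_compl.exists_subset_card_eq J
  have hTq : ∀ c ∈ T, Module.finrank κ
      (R ⧸ Ideal.span {z - algebraMap κ R (algebraMap k κ c)}) = q := by
    intro c hc
    have h1 := hT hc
    simpa using h1
  by_contra hcon
  push Not at hcon
  have hW : J * q < Module.finrank κ (Wsp κ φ ψ n l) := lt_of_le_of_lt hJq' hcon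
  -- the ideals
  obtain ⟨I, hI⟩ : ∃ I : T → Ideal R,
      I = fun c : T => Ideal.span {z - algebraMap κ R (algebraMap k κ (c : k))} := ⟨_, rfl⟩
  have hcop : Pairwise (Function.onFun IsCoprime I) := by
    intro c c' hcc
    have h1 : algebraMap k κ c' - algebraMap k κ c ≠ 0 := by
      rw [sub_ne_zero]
      intro h
      exact hcc (Subtype.ext (hinj h)).symm
    change IsCoprime (I c) (I c')
    rw [hI]
    simp only
    rw [Ideal.isCoprime_span_singleton_iff]
    refine ⟨algebraMap κ R (algebraMap k κ c' - algebraMap k κ c)⁻¹,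
      -algebraMap κ R (algebraMap k κ c' - algebraMap k κ c)⁻¹, ?_⟩
    have h2 : algebraMap κ R (algebraMap k κ c' - algebraMap k κ c)⁻¹ *
        algebraMap κ R (algebraMap k κ c' - algebraMap k κ c) = 1 := by
      rw [← map_mul, inv_mul_cancel₀ h1, map_one]
    rw [map_sub (algebraMap κ R) (algebraMap k κ c')] at h2
    linear_combination h2
  have hIfin : ∀ c, Module.finrank κ (R ⧸ I c) = q := by
    intro c
    rw [hI]
    exact hTq c c.2
  have hIF : ∀ c, Module.Finite κ (R ⧸ I c) := fun c =>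
    Module.finite_of_finrank_pos (by rw [hIfin c]; exact hq1)
  have htot : Module.finrank κ (∀ c, R ⧸ I c) = J * q := by
    rw [Module.finrank_pi_fintype]
    rw [Finset.sum_congr rfl fun c _ => hIfin c]
    rw [Finset.sum_const, Finset.card_univ, Fintype.card_coe, hTc, smul_eq_mul]
  obtain ⟨Θ, hΘ⟩ : ∃ Θ : R →ₗ[κ] (∀ c, R ⧸ I c), ∀ x c, Θ x c = Ideal.Quotient.mk (I c) x :=
    ⟨LinearMap.pi fun c => (Ideal.Quotient.mkₐ κ (I c)).toLinearMap, fun x c => rfl⟩
  have hΘs : Function.Surjective Θ := by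
    intro x
    obtain ⟨r, hr⟩ := Ideal.pi_quotient_surjective hcop x
    exact ⟨r, funext fun c => by rw [hΘ]; exact hr c⟩
  -- the sections are in `R`
  have hWR : Wsp κ φ ψ n l ≤ Subalgebra.toSubmodule R := by
    unfold Wsp
    rw [Submodule.span_le]
    rintro x ⟨α, β, -, -, rfl⟩
    refine R.mul_mem (R.prod_mem fun i _ => R.pow_mem (hφR i) _)
      (R.prod_mem fun i _ => R.pow_mem (hψR i) _)
  have hWF : Module.Finite κ (Wsp κ φ ψ n l) :=
    Module.finite_of_finrank_pos (lt_of_le_of_lt (Nat.zero_le _) hW)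
  obtain ⟨Λ, hΛ⟩ : ∃ Λ : Wsp κ φ ψ n l →ₗ[κ] (∀ c, R ⧸ I c),
      ∀ x, Λ x = Θ ⟨(x : C), hWR x.2⟩ :=
    ⟨Θ.comp (Submodule.inclusion hWR), fun x => rfl⟩
  have hker : LinearMap.ker Λ ≠ ⊥ :=
    LinearMap.ker_ne_bot_of_finrank_lt (by rw [htot]; exact hW)
  obtain ⟨x, hx, hx0⟩ := Submodule.exists_mem_ne_zero_of_ne_bot hker
  obtain ⟨S, hS⟩ : ∃ S : R, S = ⟨(x : C), hWR x.2⟩ := ⟨_, rfl⟩
  have hSC : (S : C) = x := by rw [hS]
  have hSW : (S : C) ∈ Wsp κ φ ψ n l := by rw [hSC]; exact x.2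
  have hS0 : S ≠ 0 := by
    intro h
    apply hx0
    apply Subtype.ext
    rw [← hSC, h]
    rfl
  have hSΘ : Θ S = 0 := by
    rw [LinearMap.mem_ker, hΛ] at hx
    rw [hS]
    exact hx
  obtain ⟨hf, hle⟩ := hCLZ k κ C a b φ ψ M M' n l R hy hRfg hφR hψR hφ hψ S hSW hS0
  -- the quotient by `S`
  have hIS : ∀ c, Ideal.span {S} ≤ I c := by
    intro c
    rw [Ideal.span_singleton_le_iff_mem, ← Ideal.Quotient.eq_zero_iff_mem, ← hΘ, hSΘ]
    rfl
  obtain ⟨Ξ, hΞ⟩ : ∃ Ξ : (R ⧸ Ideal.span {S}) →ₗ[κ] (∀ c, R ⧸ I c),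
      ∀ r : R, Ξ (Ideal.Quotient.mk _ r) = Θ r :=
    ⟨LinearMap.pi fun c => (Ideal.Quotient.factorₐ κ (hIS c)).toLinearMap, fun r => by
      funext c
      rw [hΘ]
      rfl⟩
  have hΞs : Function.Surjective Ξ := by
    intro y
    obtain ⟨r, hr⟩ := hΘs y
    exact ⟨Ideal.Quotient.mk _ r, by rw [hΞ, hr]⟩
  have h1 := LinearMap.finrank_le_finrank_of_surjective (f := Ξ) hΞs
  rw [htot] at h1
  omega

end Pool.Agent.H13.TD
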